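import Mathlib
import Pool.Agent.R113.M4

set_option autoImplicit false

/-!
# A spectrally arbitrary sign pattern with a superpattern that is not spectrally arbitrary

`S = M₄ ⊕ T₂` is spectrally arbitrary. Its superpattern `S'`, obtained by replacing the single zero
entry in position `(3,1)` by a minus sign, does not allow nilpotence: no realization of `S'` has
characteristic polynomial `X⁶`.
-/

namespace Pool.Agent.Results.MP_557f7f_co.SpectralSuperpattern

open Polynomial Matrix Pool.Agent.H228R3.Sap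

/-- `A` is a realization of the sign pattern `S`. -/
def Realizes {n : ℕ} (A : Matrix (Fin n) (Fin n) ℝ) (S : Matrix (Fin n) (Fin n) SignType) : Prop :=
  ∀ i j, SignType.sign (A i j) = S i j

/-- The sign pattern `S` is spectrally arbitrary: every monic real polynomial of degree `n` is the
characteristic polynomial of a realization of `S`. -/
def SpectrallyArbitrary {n : ℕ} (S : Matrix (Fin n) (Fin n) SignType) : Prop :=
  ∀ p : ℝ[X], p.Monic → p.natDegree = n →
    ∃ A : Matrix (Fin n) (Fin n) ℝ, Realizes A S ∧ A.charpoly = p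

/-- `S'` is a superpattern of `S`: it agrees with `S` at every nonzero entry of `S`. -/
def IsSuperpattern {n : ℕ} (S' S : Matrix (Fin n) (Fin n) SignType) : Prop :=
  ∀ i j, S i j ≠ 0 → S' i j = S i j

/-- The pattern `M₄ ⊕ T₂`. -/
def S : Matrix (Fin 6) (Fin 6) SignType :=
  !![1, 1, -1, 0, 0, 0;
     -1, -1, 1, 0, 0, 0;
     0, 0, 0, -1, 0, 0;
     1, 1, 0, 0, 0, 0;
     0, 0, 0, 0, 1, 1;
     0, 0, 0, 0, -1, -1]

/-- The superpattern: the entry in position `(3,1)` is now `-`. -/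
def S' : Matrix (Fin 6) (Fin 6) SignType :=
  !![1, 1, -1, 0, 0, 0;
     -1, -1, 1, 0, 0, 0;
     -1, 0, 0, -1, 0, 0;
     1, 1, 0, 0, 0, 0;
     0, 0, 0, 0, 1, 1;
     0, 0, 0, 0, -1, -1]

/-- The upper left block of `S'`. -/
def P4 : Matrix (Fin 4) (Fin 4) SignType :=
  !![1, 1, -1, 0;
     -1, -1, 1, 0;
     -1, 0, 0, -1;
     1, 1, 0, 0]

theorem S_ll : ∀ i j : Fin 4, S (Fin.castAdd 2 i) (Fin.castAdd 2 j) = R113.M4.pat i j := by
  intro i j
  fin_cases i <;> fin_cases j <;> rfl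

theorem S_lr : ∀ (i : Fin 4) (j : Fin 2), S (Fin.castAdd 2 i) (Fin.natAdd 4 j) = 0 := by
  decide

theorem S_rl : ∀ (i : Fin 2) (j : Fin 4), S (Fin.natAdd 4 i) (Fin.castAdd 2 j) = 0 := by
  decide

theorem S_rr : ∀ i j : Fin 2, S (Fin.natAdd 4 i) (Fin.natAdd 4 j) =
    (!![1, 1; -1, -1] : Matrix (Fin 2) (Fin 2) SignType) i j := by
  intro i j
  fin_cases i <;> fin_cases j <;> rfl

theorem S'_ll : ∀ i j : Fin 4, S' (Fin.castAdd 2 i) (Fin.castAdd 2 j) = P4 i j := by
  intro i j
  fin_cases i <;> fin_cases j <;> rfl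

theorem S'_lr : ∀ (i : Fin 4) (j : Fin 2), S' (Fin.castAdd 2 i) (Fin.natAdd 4 j) = 0 := by
  decide

theorem S'_rl : ∀ (i : Fin 2) (j : Fin 4), S' (Fin.natAdd 4 i) (Fin.castAdd 2 j) = 0 := by
  decide

/-- The equivalence of `Fin 4 ⊕ Fin 2` and `Fin 6`. -/
def e6 : Fin 4 ⊕ Fin 2 ≃ Fin 6 := finSumFinEquiv

theorem e6_l (i : Fin 4) : e6.symm (Fin.castAdd 2 i) = Sum.inl i :=
  finSumFinEquiv_symm_apply_castAdd i

theorem e6_r (i : Fin 2) : e6.symm (Fin.natAdd 4 i) = Sum.inr i :=
  finSumFinEquiv_symm_apply_natAdd i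

/-- `S` is spectrally arbitrary. -/
theorem S_arbitrary : SpectrallyArbitrary S := by
  intro p hp hdeg
  obtain ⟨g, h, ⟨A, hA, hg⟩, hh, rfl⟩ := R113.M4.factor6 (f := p) ⟨hdeg, hp⟩
  obtain ⟨u, v, rfl⟩ := exists_quad hh
  obtain ⟨B, hB, hBc⟩ := R113.M4.real2 u v
  refine ⟨Matrix.reindex e6 e6 (Matrix.fromBlocks A 0 0 B), ?_, ?_⟩
  · intro i j
    refine Fin.addCases (m := 4) (n := 2) (fun i => ?_) (fun i => ?_) i <;>
      refine Fin.addCases (m := 4) (n := 2) (fun j => ?_) (fun j => ?_) j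
    · rw [S_ll, ← hA, Matrix.reindex_apply, Matrix.submatrix_apply, e6_l, e6_l,
        Matrix.fromBlocks_apply₁₁]
    · rw [S_lr, Matrix.reindex_apply, Matrix.submatrix_apply, e6_l, e6_r,
        Matrix.fromBlocks_apply₁₂]
      simp
    · rw [S_rl, Matrix.reindex_apply, Matrix.submatrix_apply, e6_l, e6_r,
        Matrix.fromBlocks_apply₂₁]
      simp
    · rw [S_rr, ← hB, Matrix.reindex_apply, Matrix.submatrix_apply, e6_r, e6_r,
        Matrix.fromBlocks_apply₂₂]
  · rw [Matrix.charpoly_reindex, Matrix.charpoly_fromBlocks_zero₁₂, hg, hBc]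

/-- The characteristic polynomial of a matrix with the zeros of `P4`. -/
theorem charpoly4 (a b c d e f g h i j : ℝ) :
    (!![a, b, c, 0; d, e, f, 0; g, 0, 0, h; i, j, 0, 0] : Matrix (Fin 4) (Fin 4) ℝ).charpoly =
      X ^ 4 - C (a + e) * X ^ 3 + C (a * e - b * d - c * g) * X ^ 2 -
        C (g * (b * f - c * e) + h * (i * c + j * f)) * X +
        C (h * (c * (e * i - d * j) + f * (a * j - b * i))) := by
  have h1 : charmatrix (!![a, b, c, 0; d, e, f, 0; g, 0, 0, h; i, j, 0, 0] :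
      Matrix (Fin 4) (Fin 4) ℝ) =
      !![X - C a, -C b, -C c, 0;
         -C d, X - C e, -C f, 0;
         -C g, 0, X, -C h;
         -C i, -C j, 0, X] := by
    ext i j
    fin_cases i <;> fin_cases j <;> simp [charmatrix]
  rw [Matrix.charpoly, h1]
  simp [Matrix.det_succ_row_zero, Fin.sum_univ_succ, Fin.succAbove]
  ring

theorem quartic_coeffs (p q r s : ℝ)
    (h : (X ^ 4 - C p * X ^ 3 + C q * X ^ 2 - C r * X + C s : ℝ[X]) = X ^ 4) :
    p = 0 ∧ q = 0 ∧ r = 0 ∧ s = 0 := by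
  have h3 := congrArg (fun t => t.coeff 3) h
  have h2 := congrArg (fun t => t.coeff 2) h
  have h1 := congrArg (fun t => t.coeff 1) h
  have h0 := congrArg (fun t => t.coeff 0) h
  simp [coeff_X, coeff_C, coeff_X_pow] at h3 h2 h1 h0
  exact ⟨h3, h2, h1, h0⟩

/-- No realization of `P4` is nilpotent. -/
theorem P4_not_nilpotent (A : Matrix (Fin 4) (Fin 4) ℝ) (hA : ∀ i j, SignType.sign (A i j) = P4 i j)
    (hc : A.charpoly = X ^ 4) : False := by
  have pos : ∀ i j, P4 i j = 1 → 0 < A i j := fun i j h => by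
    have := hA i j
    rw [h] at this
    exact sign_eq_one_iff.1 this
  have neg : ∀ i j, P4 i j = -1 → A i j < 0 := fun i j h => by
    have := hA i j
    rw [h] at this
    exact sign_eq_neg_one_iff.1 this
  have zer : ∀ i j, P4 i j = 0 → A i j = 0 := fun i j h => by
    have := hA i j
    rw [h] at this
    exact sign_eq_zero_iff.1 this
  have ha := pos 0 0 (by decide)
  have hb := pos 0 1 (by decide)
  have hcc := neg 0 2 (by decide)
  have hd := neg 1 0 (by decide)
  have he := neg 1 1 (by decide)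
  have hf := pos 1 2 (by decide)
  have hg := neg 2 0 (by decide)
  have hh := neg 2 3 (by decide)
  have hi := pos 3 0 (by decide)
  have hj := pos 3 1 (by decide)
  have hform : A = !![A 0 0, A 0 1, A 0 2, 0; A 1 0, A 1 1, A 1 2, 0; A 2 0, 0, 0, A 2 3;
      A 3 0, A 3 1, 0, 0] := by
    ext i j
    fin_cases i <;> fin_cases j <;> simp <;> apply zer <;> decide
  rw [hform, charpoly4] at hc
  generalize A 0 0 = a at *
  generalize A 0 1 = b at *
  generalize A 0 2 = c at *
  generalize A 1 0 = d at *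
  generalize A 1 1 = e at *
  generalize A 1 2 = f at *
  generalize A 2 0 = g at *
  generalize A 2 3 = h at *
  generalize A 3 0 = i at *
  generalize A 3 1 = j at *
  obtain ⟨e1, e2, e3, e4⟩ := quartic_coeffs _ _ _ _ hc
  have hh' : h ≠ 0 := hh.ne
  have e4' : c * (e * i - d * j) + f * (a * j - b * i) = 0 := by
    rcases mul_eq_zero.1 e4 with h0 | h0
    · exact absurd h0 hh'
    · exact h0
  have e5 : e = -a := by linarith
  subst e5
  -- the key identity
  have key : g * (b * f + a * c) ^ 2 * b + h * j * ((b * f + a * c) ^ 2 + c ^ 2 * (c * g)) = 0 := by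
    linear_combination b * (b * f + a * c) * e3 + b * h * c * e4' - h * j * c ^ 2 * e2
  have h1 : 0 < c * g := mul_pos_of_neg_of_neg hcc hg
  have h2 : 0 ≤ (b * f + a * c) ^ 2 := sq_nonneg _
  have hc0 : c ≠ 0 := hcc.ne
  have h3 : 0 < c ^ 2 * (c * g) := mul_pos (by positivity) h1
  have h4 : g * (b * f + a * c) ^ 2 * b ≤ 0 :=
    mul_nonpos_of_nonpos_of_nonneg (mul_nonpos_of_nonpos_of_nonneg hg.le h2) hb.le
  have h5 : h * j < 0 := mul_neg_of_neg_of_pos hh hj
  have h6 : 0 < (b * f + a * c) ^ 2 + c ^ 2 * (c * g) := by linarith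
  have h7 := mul_neg_of_neg_of_pos h5 h6
  linarith

/-- No realization of `S'` has characteristic polynomial `X⁶`. -/
theorem S'_not_nilpotent (A : Matrix (Fin 6) (Fin 6) ℝ) (hA : Realizes A S') :
    A.charpoly ≠ X ^ 6 := by
  intro hc
  set A₁ : Matrix (Fin 4) (Fin 4) ℝ := fun i j => A (Fin.castAdd 2 i) (Fin.castAdd 2 j) with hA₁
  set A₂ : Matrix (Fin 2) (Fin 2) ℝ := fun i j => A (Fin.natAdd 4 i) (Fin.natAdd 4 j) with hA₂
  have hform : A = Matrix.reindex e6 e6 (Matrix.fromBlocks A₁ 0 0 A₂) := by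
    ext i j
    refine Fin.addCases (m := 4) (n := 2) (fun i => ?_) (fun i => ?_) i <;>
      refine Fin.addCases (m := 4) (n := 2) (fun j => ?_) (fun j => ?_) j
    · rw [Matrix.reindex_apply, Matrix.submatrix_apply, e6_l, e6_l, Matrix.fromBlocks_apply₁₁]
    · rw [Matrix.reindex_apply, Matrix.submatrix_apply, e6_l, e6_r, Matrix.fromBlocks_apply₁₂]
      have := hA (Fin.castAdd 2 i) (Fin.natAdd 4 j)
      rw [S'_lr] at this
      exact sign_eq_zero_iff.1 this
    · rw [Matrix.reindex_apply, Matrix.submatrix_apply, e6_l, e6_r, Matrix.fromBlocks_apply₂₁]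
      have := hA (Fin.natAdd 4 i) (Fin.castAdd 2 j)
      rw [S'_rl] at this
      exact sign_eq_zero_iff.1 this
    · rw [Matrix.reindex_apply, Matrix.submatrix_apply, e6_r, e6_r, Matrix.fromBlocks_apply₂₂]
  rw [hform, Matrix.charpoly_reindex, Matrix.charpoly_fromBlocks_zero₁₂] at hc
  have hdvd : A₁.charpoly ∣ X ^ 6 := ⟨_, hc.symm⟩
  obtain ⟨k, -, hk⟩ := (dvd_prime_pow prime_X _).1 hdvd
  have hk' : A₁.charpoly = X ^ k :=
    eq_of_monic_of_associated (Matrix.charpoly_monic _) (monic_X_pow k) hk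
  have hk4 : k = 4 := by
    have h1 := Matrix.charpoly_natDegree_eq_dim A₁
    rw [hk', natDegree_X_pow] at h1
    simpa using h1
  subst hk4
  refine P4_not_nilpotent A₁ (fun i j => ?_) hk'
  rw [← S'_ll, ← hA]

/-- **Full answer to Q1: yes.** The sign pattern `S = M₄ ⊕ T₂` is spectrally arbitrary, `S'` is a
superpattern of `S` which differs from `S` in a single entry, and `S'` is not spectrally arbitrary;
in fact no realization of `S'` has characteristic polynomial `X⁶`. -/
theorem result :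
    SpectrallyArbitrary S ∧ IsSuperpattern S' S ∧
      (∀ i j, S' i j ≠ S i j ↔ i = 2 ∧ j = 0) ∧
      ¬ SpectrallyArbitrary S' ∧
      ∀ A : Matrix (Fin 6) (Fin 6) ℝ, Realizes A S' → A.charpoly ≠ X ^ 6 := by
  refine ⟨S_arbitrary, ?_, ?_, ?_, S'_not_nilpotent⟩
  · intro i j
    fin_cases i <;> fin_cases j <;> decide
  · intro i j
    fin_cases i <;> fin_cases j <;> decide
  · intro h
    obtain ⟨A, hA, hc⟩ := h (X ^ 6) (monic_X_pow 6) (natDegree_X_pow 6)
    exact S'_not_nilpotent A hA hc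

end Pool.Agent.Results.MP_557f7f_co.SpectralSuperpattern
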